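import Mathlib
import Pool.Agent.Lib.MP_2194ec_nt.GAL.BDefs

set_option autoImplicit false

/-! # Lemmas on the embeddings of Hahn series -/

namespace Pool.DynLehmer.GAL
open Polynomial

variable {F : Type} [Field F]

theorem phi_coeff_mul (q : ℕ) (x : HahnSeries ℚ F) (r : ℚ) :
    (phi F q x).coeff (((q : ℚ) + 1) * r) = x.coeff r := by
  change (HahnSeries.embDomain _ _).coeff _ = _
  exact HahnSeries.embDomain_coeff (f := (⟨⟨AddMonoidHom.mulLeft ((q : ℚ) + 1),
    mul_right_injective₀ (by positivity)⟩, fun {_ _} => mul_le_mul_iff_right₀ (by positivity)⟩ :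
    ℚ ↪o ℚ)) (x := x) (a := r)

theorem phi_coeff (q : ℕ) (x : HahnSeries ℚ F) (r : ℚ) :
    (phi F q x).coeff r = x.coeff (r / ((q : ℚ) + 1)) := by
  have h : ((q : ℚ) + 1) ≠ 0 := by positivity
  have h1 := phi_coeff_mul q x (r / ((q : ℚ) + 1))
  have e : ((q : ℚ) + 1) * (r / ((q : ℚ) + 1)) = r := by field_simp
  rwa [e] at h1

theorem phi_injective (q : ℕ) : Function.Injective (phi F q) := HahnSeries.embDomain_injective

theorem phi_C (q : ℕ) (a : F) : phi F q (HahnSeries.C a) = HahnSeries.C a :=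
  HahnSeries.embDomainRingHom_C

theorem phi_single (q : ℕ) (r : ℚ) (a : F) :
    phi F q (HahnSeries.single r a) = HahnSeries.single (((q : ℚ) + 1) * r) a := by
  ext t
  rw [phi_coeff, HahnSeries.coeff_single, HahnSeries.coeff_single]
  have h : ((q : ℚ) + 1) ≠ 0 := by positivity
  have : t / ((q : ℚ) + 1) = r ↔ t = ((q : ℚ) + 1) * r := by
    rw [div_eq_iff h, mul_comm]
  by_cases ht : t = ((q : ℚ) + 1) * r
  · rw [if_pos (this.2 ht), if_pos ht]
  · rw [if_neg (fun h' => ht (this.1 h')), if_neg ht]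

theorem phi_order (q : ℕ) (x : HahnSeries ℚ F) :
    (phi F q x).order = ((q : ℚ) + 1) * x.order := by
  by_cases hx : x = 0
  · simp [hx]
  have hq : (0 : ℚ) < (q : ℚ) + 1 := by positivity
  have hpx : phi F q x ≠ 0 := fun h => hx (phi_injective q (by rw [h, map_zero]))
  apply le_antisymm
  · apply HahnSeries.order_le_of_coeff_ne_zero
    rw [phi_coeff_mul, ← HahnSeries.leadingCoeff_eq]
    exact HahnSeries.leadingCoeff_ne_zero.2 hx
  · by_contra hcon
    push Not at hcon
    have h1 : (phi F q x).coeff (phi F q x).order ≠ 0 := by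
      rw [← HahnSeries.leadingCoeff_eq]
      exact HahnSeries.leadingCoeff_ne_zero.2 hpx
    rw [phi_coeff] at h1
    apply h1
    apply HahnSeries.coeff_eq_zero_of_lt_order
    rw [div_lt_iff₀ hq, mul_comm]
    exact hcon

theorem phi_leadingCoeff (q : ℕ) (x : HahnSeries ℚ F) :
    (phi F q x).leadingCoeff = x.leadingCoeff := by
  rw [HahnSeries.leadingCoeff_eq, phi_order, phi_coeff_mul, HahnSeries.leadingCoeff_eq]

theorem algMap_eq {K : Type} [Field K] [Algebra K F] (a : K) :
    algebraMap K (HahnSeries ℚ F) a = HahnSeries.C (algebraMap K F a) := by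
  rw [HahnSeries.algebraMap_apply', PowerSeries.algebraMap_apply, HahnSeries.ofPowerSeries_C]

theorem phi_aeval {K : Type} [Field K] [Algebra K F] (q : ℕ) (x : HahnSeries ℚ F) (p : K[X]) :
    phi F q (aeval x p) = aeval (phi F q x) p := by
  rw [aeval_def, aeval_def, hom_eval₂]
  congr 1
  refine RingHom.ext fun a => ?_
  rw [RingHom.comp_apply, algMap_eq, phi_C]

theorem ofPS_coeff_of_not {Γ : Type} [Semiring Γ] [PartialOrder Γ] [IsStrictOrderedRing Γ]
    (c : PowerSeries F) (r : Γ) (hr : ∀ n : ℕ, (n : Γ) ≠ r) :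
    (HahnSeries.ofPowerSeries Γ F c).coeff r = 0 := by
  rw [HahnSeries.ofPowerSeries_apply]
  refine HahnSeries.embDomain_of_notMem_range ?_
  rintro ⟨n, hn⟩
  exact hr n hn

theorem emb_coeff (x : LaurentSeries F) (n : ℤ) : (emb F x).coeff (n : ℚ) = x.coeff n := by
  change (HahnSeries.embDomain _ _).coeff _ = _
  exact HahnSeries.embDomain_coeff (f := (⟨⟨Int.castAddHom ℚ, Int.cast_injective⟩,
    fun {_ _} => Int.cast_le⟩ : ℤ ↪o ℚ)) (x := x) (a := n)

theorem emb_coeff_of_not (x : LaurentSeries F) (r : ℚ) (hr : ∀ n : ℤ, (n : ℚ) ≠ r) :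
    (emb F x).coeff r = 0 := by
  refine HahnSeries.embDomain_of_notMem_range ?_
  rintro ⟨n, hn⟩
  exact hr n hn

theorem emb_injective : Function.Injective (emb F) := HahnSeries.embDomain_injective

theorem emb_C (a : F) : emb F (HahnSeries.C a) = HahnSeries.C a := HahnSeries.embDomainRingHom_C

theorem emb_ofPowerSeries (c : PowerSeries F) :
    emb F (HahnSeries.ofPowerSeries ℤ F c) = HahnSeries.ofPowerSeries ℚ F c := by
  ext r
  by_cases hr : ∃ n : ℤ, (n : ℚ) = r
  · obtain ⟨n, rfl⟩ := hr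
    rw [emb_coeff]
    by_cases hn : ∃ m : ℕ, (m : ℤ) = n
    · obtain ⟨m, rfl⟩ := hn
      rw [HahnSeries.ofPowerSeries_apply_coeff, Int.cast_natCast,
        HahnSeries.ofPowerSeries_apply_coeff]
    · push Not at hn
      rw [ofPS_coeff_of_not _ _ hn, ofPS_coeff_of_not]
      intro m hm
      exact hn m (by exact_mod_cast hm)
  · push Not at hr
    rw [emb_coeff_of_not _ _ hr, ofPS_coeff_of_not]
    intro m hm
    exact hr m (by exact_mod_cast hm)

theorem phi_ofPowerSeries (q : ℕ) (c : PowerSeries F) :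
    phi F q (HahnSeries.ofPowerSeries ℚ F c) =
      HahnSeries.ofPowerSeries ℚ F (PowerSeries.expand (q + 1) (Nat.succ_ne_zero q) c) := by
  have h : ((q : ℚ) + 1) ≠ 0 := by positivity
  ext r
  by_cases hr : ∃ m : ℕ, (m : ℚ) = r
  · obtain ⟨m, rfl⟩ := hr
    rw [HahnSeries.ofPowerSeries_apply_coeff, PowerSeries.coeff_expand]
    split_ifs with hd
    · obtain ⟨d, rfl⟩ := hd
      rw [Nat.mul_div_cancel_left _ (Nat.succ_pos q)]
      push_cast
      rw [phi_coeff_mul, HahnSeries.ofPowerSeries_apply_coeff]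
    · rw [phi_coeff, ofPS_coeff_of_not]
      intro n hn
      apply hd
      refine ⟨n, ?_⟩
      rw [eq_div_iff h] at hn
      have : ((m : ℕ) : ℚ) = (((q + 1) * n : ℕ) : ℚ) := by push_cast; rw [← hn]; ring
      exact_mod_cast this
  · push Not at hr
    rw [ofPS_coeff_of_not _ _ hr, phi_coeff, ofPS_coeff_of_not]
    intro n hn
    apply hr ((q + 1) * n)
    rw [eq_div_iff h] at hn
    push_cast
    rw [← hn]
    ring

end Pool.DynLehmer.GAL
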