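import Mathlib
import Pool.Agent.Lib.MP_2194ec_nt.GAL.BDefs2
import Pool.Agent.Lib.MP_2194ec_nt.GAL.B85.Hs

set_option autoImplicit false

/-! # Fixed roots -/

namespace Pool.DynLehmer.GAL
open Polynomial

section itp

variable {K : Type} [Field K] (f : K[X])

theorem itp_zero : itp f 0 = X := rfl

theorem itp_succ (k : ℕ) : itp f (k + 1) = f.comp (itp f k) := by
  unfold itp
  rw [Function.iterate_succ_apply']

theorem itp_one : itp f 1 = f := by
  rw [itp_succ, itp_zero, comp_X]

theorem itp_add (m k : ℕ) : (itp f m).comp (itp f k) = itp f (m + k) := by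
  induction m with
  | zero => rw [itp_zero, X_comp, zero_add]
  | succ m ih => rw [itp_succ, comp_assoc, ih, Nat.add_right_comm, itp_succ]

variable {f}

theorem itp_natDegree {q : ℕ} (hq : f.natDegree = q) (k : ℕ) :
    (itp f k).natDegree = q ^ k := by
  induction k with
  | zero => rw [itp_zero, natDegree_X, pow_zero]
  | succ k ih => rw [itp_succ, natDegree_comp, ih, hq, pow_succ']

theorem itp_monic (hf : f.Monic) (hq : f.natDegree ≠ 0) (k : ℕ) : (itp f k).Monic := by
  induction k with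
  | zero => exact monic_X
  | succ k ih =>
    rw [itp_succ]
    refine hf.comp ih ?_
    rw [itp_natDegree rfl]
    exact pow_ne_zero _ hq

variable {N : Type} [CommRing N] [Algebra K N]

theorem ev2_biv (k : ℕ) (x y : N) (G : K[X][X]) :
    ev2 x y (biv f k G) = ev2 (aeval x (itp f k)) (aeval y (itp f k)) G := by
  unfold ev2 biv
  rw [eval₂_comp, eval₂_map, eval₂_map]
  have h1 : eval₂ ((aeval x : K[X] →ₐ[K] N).toRingHom.comp C) y (itp f k) =
      aeval y (itp f k) := by
    rw [aeval_def]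
    congr 1
    refine RingHom.ext fun a => ?_
    simp
  rw [h1]
  congr 1
  refine RingHom.ext fun p => ?_
  change aeval x (p.comp (itp f k)) = aeval (aeval x (itp f k)) p
  rw [aeval_comp]

theorem ev2_dvd {x y : N} {G H : K[X][X]} (h : G ∣ H) (h0 : ev2 x y G = 0) :
    ev2 x y H = 0 := by
  obtain ⟨R, rfl⟩ := h
  unfold ev2 at *
  rw [eval₂_mul, h0, zero_mul]

theorem ev2_eq_eval (x y : N) (G : K[X][X]) :
    ev2 x y G = (G.map (aeval x : K[X] →ₐ[K] N).toRingHom).eval y := by
  rw [ev2, eval_map]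

end itp

section phi

variable {K F : Type} [Field K] [Field F] [Algebra K F] (q : ℕ)

theorem ph_succ (k : ℕ) (x : HahnSeries ℚ F) :
    (phi F q ^ (k + 1)) x = phi F q ((phi F q ^ k) x) := by
  rw [pow_succ']
  rfl

theorem ph_add (k l : ℕ) (x : HahnSeries ℚ F) :
    (phi F q ^ (k + l)) x = (phi F q ^ k) ((phi F q ^ l) x) := by
  rw [pow_add]
  rfl

theorem ph_order (k : ℕ) (x : HahnSeries ℚ F) :
    ((phi F q ^ k) x).order = ((q : ℚ) + 1) ^ k * x.order := by
  induction k with
  | zero => simp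
  | succ k ih => rw [ph_succ, phi_order, ih]; ring

theorem ph_lc (k : ℕ) (x : HahnSeries ℚ F) :
    ((phi F q ^ k) x).leadingCoeff = x.leadingCoeff := by
  induction k with
  | zero => simp
  | succ k ih => rw [ph_succ, phi_leadingCoeff, ih]

theorem ph_injective (k : ℕ) : Function.Injective (phi F q ^ k) :=
  (phi F q ^ k).injective

theorem ph_C (k : ℕ) (a : F) :
    (phi F q ^ k) (HahnSeries.C a) = HahnSeries.C a := by
  induction k with
  | zero => simp
  | succ k ih => rw [ph_succ, ih, phi_C]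

theorem ph_aeval (k : ℕ) (x : HahnSeries ℚ F) (p : K[X]) :
    (phi F q ^ k) (aeval x p) = aeval ((phi F q ^ k) x) p := by
  induction k with
  | zero => simp
  | succ k ih => rw [ph_succ, ih, phi_aeval, ph_succ]

theorem ph_ev2 (k : ℕ) (x y : HahnSeries ℚ F) (G : K[X][X]) :
    (phi F q ^ k) (ev2 x y G) = ev2 ((phi F q ^ k) x) ((phi F q ^ k) y) G := by
  unfold ev2
  rw [hom_eval₂]
  congr 1
  refine RingHom.ext fun p => ?_
  exact ph_aeval q k x p

variable {q} {f : K[X]} {b : HahnSeries ℚ F}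

theorem b_iter (hb : aeval b f = phi F q b) (k : ℕ) : aeval b (itp f k) = (phi F q ^ k) b := by
  induction k with
  | zero => simp [itp_zero]
  | succ k ih =>
    rw [itp_succ, aeval_comp, ih, ← ph_aeval, hb, pow_succ]
    rfl

/-- a fixed root is fixed for the multiples -/
theorem fix_mul {y : HahnSeries ℚ F} {k : ℕ} (h : (phi F q ^ k) y = aeval y (itp f k)) (n : ℕ) :
    (phi F q ^ (n * k)) y = aeval y (itp f (n * k)) := by
  induction n with
  | zero => simp [itp_zero]
  | succ n ih =>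
    rw [Nat.add_mul, one_mul, ph_add, h, ph_aeval, ih, ← aeval_comp, itp_add, add_comm]

/-- **Fixed roots.** -/
theorem exists_fixed (hspl : SplStatement) [IsAlgClosed F] [CharZero F] {b₀ : LaurentSeries F}
    (hb : aeval (emb F b₀) f = phi F q (emb F b₀))
    {G : K[X][X]} (hG : G.map (aeval (emb F b₀) : K[X] →ₐ[K] HahnSeries ℚ F).toRingHom ≠ 0)
    (hd : 0 < (G.map (aeval (emb F b₀) : K[X] →ₐ[K] HahnSeries ℚ F).toRingHom).natDegree)
    {k : ℕ} (hk : 0 < k) (hdvd : G ∣ biv f k G) :
    ∃ (y : HahnSeries ℚ F) (l : ℕ), 0 < l ∧ ev2 (emb F b₀) y G = 0 ∧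
      (phi F q ^ l) y = aeval y (itp f l) := by
  classical
  set b := emb F b₀ with hbdef
  set GM := G.map (aeval b : K[X] →ₐ[K] HahnSeries ℚ F).toRingHom with hGM
  have hsplit : GM.Splits := by
    have h1 : (aeval b : K[X] →ₐ[K] HahnSeries ℚ F).toRingHom =
        (emb F).comp (eval₂RingHom ((HahnSeries.C : F →+* LaurentSeries F).comp
          (algebraMap K F)) b₀) := by
      refine Polynomial.ringHom_ext ?_ ?_
      · intro a
        change aeval b (C a) = emb F (eval₂ _ _ (C a))
        rw [aeval_C, eval₂_C, RingHom.comp_apply, emb_C, algMap_eq]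
      · change aeval b X = emb F (eval₂ _ _ X)
        rw [aeval_X, eval₂_X]
    rw [hGM, h1, ← Polynomial.map_map]
    exact hspl F _
  have hroots : ∀ z, ev2 ((phi F q ^ k) b) z G = 0 → ∃ y', ev2 b y' G = 0 ∧
      (phi F q ^ k) y' = z := by
    intro z hz
    have h1 : GM.map (phi F q ^ k) =
        G.map (aeval ((phi F q ^ k) b) : K[X] →ₐ[K] HahnSeries ℚ F).toRingHom := by
      rw [hGM, Polynomial.map_map]
      congr 1
      refine RingHom.ext fun p => ?_
      exact ph_aeval q k b p
    have h2 : (GM.map (phi F q ^ k)).roots = GM.roots.map (phi F q ^ k) := hsplit.roots_map _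
    have h3 : z ∈ (GM.map (phi F q ^ k)).roots := by
      rw [mem_roots ((Polynomial.map_ne_zero_iff (ph_injective q k)).2 hG), IsRoot, h1,
        ← ev2_eq_eval]
      exact hz
    rw [h2, Multiset.mem_map] at h3
    obtain ⟨y', hy', he⟩ := h3
    refine ⟨y', ?_, he⟩
    rw [mem_roots hG, IsRoot] at hy'
    rw [ev2_eq_eval]
    exact hy'
  -- the self map of the set of roots
  have hτ : ∀ y : {y // ev2 b y G = 0}, ∃ y' : {y // ev2 b y G = 0},
      (phi F q ^ k) y'.1 = aeval y.1 (itp f k) := by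
    intro y
    have h1 : ev2 ((phi F q ^ k) b) (aeval y.1 (itp f k)) G = 0 := by
      rw [← b_iter hb, ← ev2_biv]
      exact ev2_dvd hdvd y.2
    obtain ⟨y', hy', he⟩ := hroots _ h1
    exact ⟨⟨y', hy'⟩, he⟩
  choose τ hτ using hτ
  have hfin : Finite {y // ev2 b y G = 0} := by
    have h1 : {y | ev2 b y G = 0} ⊆ ↑GM.roots.toFinset := by
      intro y hy
      rw [Finset.mem_coe, Multiset.mem_toFinset, mem_roots hG, IsRoot, ← ev2_eq_eval]
      exact hy
    exact (GM.roots.toFinset.finite_toSet.subset h1).to_subtype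
  obtain ⟨y₀, hy₀⟩ : ∃ y, ev2 b y G = 0 := by
    obtain ⟨y, hy⟩ := hsplit.exists_eval_eq_zero (by
      rw [degree_eq_natDegree hG]
      exact_mod_cast hd.ne')
    exact ⟨y, by rw [ev2_eq_eval]; exact hy⟩
  obtain ⟨i, j, hij, he⟩ := Finite.exists_ne_map_eq_of_infinite
    (fun n : ℕ => τ^[n] ⟨y₀, hy₀⟩)
  have key : ∀ (i j : ℕ), i < j → τ^[i] ⟨y₀, hy₀⟩ = τ^[j] ⟨y₀, hy₀⟩ →
      ∃ (y : HahnSeries ℚ F) (l : ℕ), 0 < l ∧ ev2 b y G = 0 ∧
      (phi F q ^ l) y = aeval y (itp f l) := by
    intro i j hij he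
    obtain ⟨n, rfl⟩ : ∃ n, j = n + i := ⟨j - i, by omega⟩
    rw [Function.iterate_add_apply] at he
    set y := τ^[i] ⟨y₀, hy₀⟩ with hy
    have hind : ∀ (n : ℕ) (y : {y // ev2 b y G = 0}),
        (phi F q ^ (n * k)) (τ^[n] y).1 = aeval y.1 (itp f (n * k)) := by
      intro n
      induction n with
      | zero => intro y; simp [itp_zero]
      | succ n ih =>
        intro y
        rw [Function.iterate_succ_apply, Nat.add_mul, one_mul, add_comm (n * k), ph_add, ih,
          ph_aeval, hτ, ← aeval_comp, itp_add, add_comm]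
    refine ⟨y.1, n * k, Nat.mul_pos (by omega) hk, y.2, ?_⟩
    have := hind n y
    rwa [← he] at this
  rcases lt_or_gt_of_ne hij with h | h
  · exact key i j h he
  · exact key j i h he.symm

end phi

end Pool.DynLehmer.GAL
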