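import Mathlib
import Pool.Agent.Lib.MP_2194ec_nt.GAL.B85.Fix

set_option autoImplicit false

/-! # Leading terms, the pole of a fixed root -/

namespace Pool.DynLehmer.GAL
open Polynomial

variable {K F : Type} [Field K] [Field F] [Algebra K F]

theorem aeval_map' (y : HahnSeries ℚ F) (h : K[X]) :
    aeval y (h.map (algebraMap K F)) = aeval y h := by
  rw [aeval_def, aeval_def, eval₂_map]
  congr 1
  refine RingHom.ext fun a => ?_
  rw [RingHom.comp_apply, algMap_eq, algMap_eq]
  rfl

theorem v_const (a : K) : 0 ≤ (algebraMap K (HahnSeries ℚ F) a).orderTop := by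
  rw [algMap_eq]
  exact HahnSeries.orderTop_single_le

theorem v_pow {y : HahnSeries ℚ F} (hy : y ≠ 0) (i : ℕ) :
    (y ^ i).orderTop = (((i : ℚ) * y.order : ℚ) : WithTop ℚ) := by
  have h1 := AddValuation.map_pow (HahnSeries.addVal ℚ F) y i
  rw [HahnSeries.addVal_apply, HahnSeries.addVal_apply_of_ne hy, ← WithTop.coe_nsmul,
    nsmul_eq_mul] at h1
  exact h1

theorem v_mul (x y : HahnSeries ℚ F) : (x * y).orderTop = x.orderTop + y.orderTop := by
  have := AddValuation.map_mul (HahnSeries.addVal ℚ F) x y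
  simpa only [HahnSeries.addVal_apply] using this

theorem lc_pow (y : HahnSeries ℚ F) (n : ℕ) : (y ^ n).leadingCoeff = y.leadingCoeff ^ n := by
  induction n with
  | zero =>
    rw [pow_zero, pow_zero]
    exact HahnSeries.leadingCoeff_of_single
  | succ n ih => rw [pow_succ, HahnSeries.leadingCoeff_mul, ih, pow_succ]

/-- the values of polynomials at a pole -/
theorem pole_eval {y : HahnSeries ℚ F} (hy : y ≠ 0) (hneg : y.order < 0) {p : K[X]}
    (hp : p ≠ 0) : aeval y p ≠ 0 ∧ (aeval y p).order = (p.natDegree : ℚ) * y.order ∧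
      (aeval y p).leadingCoeff =
        algebraMap K F p.leadingCoeff * y.leadingCoeff ^ p.natDegree := by
  set n := p.natDegree with hn
  set T : HahnSeries ℚ F := algebraMap K (HahnSeries ℚ F) p.leadingCoeff * y ^ n with hT
  set R : HahnSeries ℚ F := ∑ i ∈ Finset.range n,
    algebraMap K (HahnSeries ℚ F) (p.coeff i) * y ^ i with hR
  have h1 : aeval y p = T + R := by
    rw [aeval_def, eval₂_eq_sum_range, ← hn, Finset.sum_range_succ, add_comm, hT, hR,
      leadingCoeff, ← hn]
  have hlc : algebraMap K F p.leadingCoeff ≠ 0 := by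
    rw [Ne, map_eq_zero]
    exact leadingCoeff_ne_zero.2 hp
  have hT1 : T.orderTop = (((n : ℚ) * y.order : ℚ) : WithTop ℚ) := by
    rw [hT, v_mul, v_pow hy, algMap_eq]
    change (HahnSeries.single 0 _).orderTop + _ = _
    rw [HahnSeries.orderTop_single hlc]
    change ((0 : WithTop ℚ)) + _ = _
    rw [zero_add]
  have hT0 : T ≠ 0 := by
    rw [← HahnSeries.orderTop_ne_top, hT1]
    exact WithTop.coe_ne_top
  have hT2 : T.leadingCoeff = algebraMap K F p.leadingCoeff * y.leadingCoeff ^ n := by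
    rw [hT, HahnSeries.leadingCoeff_mul, algMap_eq]
    change (HahnSeries.single 0 _).leadingCoeff * _ = _
    rw [HahnSeries.leadingCoeff_of_single]
    rw [lc_pow]
  have hTR : T.orderTop < R.orderTop := by
    have h2 := AddValuation.map_lt_sum (HahnSeries.addVal ℚ F) (s := Finset.range n)
      (f := fun i => algebraMap K (HahnSeries ℚ F) (p.coeff i) * y ^ i)
      (g := (((n : ℚ) * y.order : ℚ) : WithTop ℚ)) WithTop.coe_ne_top (by
        intro i hi
        rw [Finset.mem_range] at hi
        rw [HahnSeries.addVal_apply, v_mul, v_pow hy]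
        have h3 : (((n : ℚ) * y.order : ℚ) : WithTop ℚ) <
            (((i : ℚ) * y.order : ℚ) : WithTop ℚ) := by
          rw [WithTop.coe_lt_coe]
          have : (i : ℚ) < n := by exact_mod_cast hi
          nlinarith
        refine lt_of_lt_of_le h3 ?_
        exact le_add_of_nonneg_left (v_const _))
    rw [HahnSeries.addVal_apply] at h2
    rw [hT1]
    exact h2
  have h3 : (T + R).orderTop = T.orderTop := HahnSeries.orderTop_add_eq_left hTR
  have h4 : (T + R).leadingCoeff = T.leadingCoeff := HahnSeries.leadingCoeff_add_eq_left hTR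
  have h5 : T + R ≠ 0 := by
    rw [← HahnSeries.orderTop_ne_top, h3]
    exact HahnSeries.orderTop_ne_top.2 hT0
  rw [h1]
  refine ⟨h5, ?_, by rw [h4, hT2]⟩
  have h6 := HahnSeries.order_eq_orderTop_of_ne_zero h5
  rw [h3, hT1] at h6
  exact_mod_cast h6

theorem transc {y : HahnSeries ℚ F} (hy : y ≠ 0) (hneg : y.order < 0) : Transcendental K y := by
  rw [transcendental_iff]
  intro p hp
  by_contra hne
  exact (pole_eval hy hneg hne).1 hp

theorem int_eval {u : HahnSeries ℚ F} (hu : 0 ≤ u.orderTop) (p : K[X]) :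
    0 ≤ (aeval u p).orderTop := by
  rw [aeval_def, eval₂_eq_sum_range, ← HahnSeries.addVal_apply]
  refine AddValuation.map_le_sum _ ?_
  intro i _
  rw [AddValuation.map_mul, AddValuation.map_pow, HahnSeries.addVal_apply,
    HahnSeries.addVal_apply]
  exact add_nonneg (v_const _) (nsmul_nonneg hu _)

/-- **A fixed root without a pole.** -/
theorem no_pole {q : ℕ} {f : K[X]} (hf : f.Monic) (hq : f.natDegree = q + 1)
    {y : HahnSeries ℚ F} {k : ℕ} (h : (phi F q ^ k) y = aeval y (itp f k))
    (hy : 0 ≤ y.orderTop) (hne : y ≠ HahnSeries.C (y.coeff 0)) :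
    (itp f k).map (algebraMap K F) =
      (X - C (y.coeff 0)) ^ ((q + 1) ^ k) + C (y.coeff 0) := by
  set c := y.coeff 0 with hc
  set u := y - HahnSeries.C c with hu
  have hu0 : u ≠ 0 := sub_ne_zero.2 hne
  have hupos : 0 < u.order := by
    by_contra hcon
    push Not at hcon
    have h1 : u.coeff u.order ≠ 0 := fun h => hu0 (HahnSeries.coeff_order_eq_zero.1 h)
    apply h1
    rw [hu, HahnSeries.coeff_sub]
    rw [← hu]
    rcases hcon.lt_or_eq with h2 | h2
    · rw [HahnSeries.coeff_eq_zero_of_lt_orderTop (lt_of_lt_of_le (by exact_mod_cast h2) hy),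
        zero_sub, neg_eq_zero]
      exact HahnSeries.coeff_single_of_ne h2.ne
    · rw [h2, ← hc]
      rw [show (HahnSeries.C c : HahnSeries ℚ F).coeff 0 = c from
        HahnSeries.coeff_single_same 0 c, sub_self]
  have hutop : u.orderTop = ((u.order : ℚ) : WithTop ℚ) :=
    (HahnSeries.order_eq_orderTop_of_ne_zero hu0).symm
  have hdeg : ((itp f k).map (algebraMap K F)).natDegree = (q + 1) ^ k := by
    rw [natDegree_map, itp_natDegree hq]
  have hQ0 : 0 < (q + 1) ^ k := by positivity
  have hmon : ((itp f k).map (algebraMap K F)).Monic := (itp_monic hf (by omega) k).map _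
  set P : F[X] := (itp f k).map (algebraMap K F) - C c with hP
  have hPmon : P.Monic := by
    rw [hP, sub_eq_add_neg, ← C_neg]
    refine hmon.add_of_left ?_
    rw [degree_eq_natDegree hmon.ne_zero, hdeg]
    exact lt_of_le_of_lt degree_C_le (by exact_mod_cast hQ0)
  have hPdeg : P.natDegree = (q + 1) ^ k := by
    rw [hP, natDegree_sub_C, hdeg]
  have hPy : aeval y P = (phi F q ^ k) u := by
    rw [hP, map_sub, aeval_map', ← h, hu, map_sub, ph_C, aeval_C, algMap_eq]
    rfl
  obtain ⟨p₁, hp₁, hnd⟩ := exists_eq_pow_rootMultiplicity_mul_and_not_dvd P hPmon.ne_zero c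
  set j := P.rootMultiplicity c with hj
  have hp1c : p₁.eval c ≠ 0 := by
    intro h0
    exact hnd (dvd_iff_isRoot.2 h0)
  have hv1 : (aeval y p₁).orderTop = 0 := by
    obtain ⟨p₂, hp₂⟩ : (X - C c) ∣ p₁ - C (p₁.eval c) := X_sub_C_dvd_sub_C_eval
    have h1 : aeval y p₁ = HahnSeries.C (p₁.eval c) + u * aeval y p₂ := by
      have h2 : p₁ = C (p₁.eval c) + (X - C c) * p₂ := by rw [← hp₂]; ring
      conv_lhs => rw [h2]
      rw [map_add, map_mul, map_sub, aeval_C, aeval_C, aeval_X, algMap_eq, algMap_eq]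
      rfl
    rw [h1]
    have h3 : (HahnSeries.C (p₁.eval c) : HahnSeries ℚ F).orderTop = 0 :=
      HahnSeries.orderTop_single hp1c
    rw [HahnSeries.orderTop_add_eq_left, h3]
    rw [h3, v_mul]
    refine lt_of_lt_of_le (b := u.orderTop) ?_ (le_add_of_nonneg_right (int_eval hy p₂))
    rw [hutop]
    exact_mod_cast hupos
  have hv2 : ((phi F q ^ k) u).orderTop = (((j : ℚ) * u.order : ℚ) : WithTop ℚ) := by
    rw [← hPy, hp₁, map_mul, map_pow, map_sub, aeval_X, aeval_C, algMap_eq, v_mul, hv1, add_zero]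
    exact v_pow hu0 j
  have hphu : (phi F q ^ k) u ≠ 0 := fun h0 => hu0 (ph_injective q k (by rw [h0, map_zero]))
  have hj2 : j = (q + 1) ^ k := by
    rw [← HahnSeries.order_eq_orderTop_of_ne_zero hphu, ph_order] at hv2
    have h3 : ((q : ℚ) + 1) ^ k * u.order = (j : ℚ) * u.order := by exact_mod_cast hv2
    have h4 := mul_right_cancel₀ hupos.ne' h3
    have h5 : (((q + 1) ^ k : ℕ) : ℚ) = (j : ℚ) := by push_cast; exact h4
    exact_mod_cast h5.symm
  have hp1m : p₁.Monic := by
    have : ((X - C c) ^ j * p₁).Monic := by rw [← hp₁]; exact hPmon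
    exact (Monic.pow (monic_X_sub_C c) j).of_mul_monic_left this
  have hp11 : p₁ = 1 := by
    have h1 : P.natDegree = j + p₁.natDegree := by
      conv_lhs => rw [hp₁]
      rw [(Monic.pow (monic_X_sub_C c) j).natDegree_mul hp1m, natDegree_pow, natDegree_X_sub_C,
        mul_one]
    rw [hPdeg, hj2] at h1
    exact eq_one_of_monic_natDegree_zero hp1m (by omega)
  rw [hp11, mul_one, hj2] at hp₁
  rw [← hp₁, hP]
  ring

/-- **Every fixed root has a pole.** -/
theorem pole (hpow : PowStatement) (hcon : ConStatement) [CharZero K] [Algebra.IsAlgebraic K F]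
    {q : ℕ} {f : K[X]} (hf : f.Monic) (hq : f.natDegree = q + 1) (hq1 : 1 ≤ q)
    (hne : ∀ b : K, f ≠ (X - C b) ^ (q + 1) + C b) {G : K[X][X]} (hG : Irreducible G)
    (hX : ∃ i, 0 < (G.coeff i).natDegree) {b y : HahnSeries ℚ F} (hb0 : b ≠ 0) (hb : b.order < 0)
    (hroot : ev2 b y G = 0) {k : ℕ} (hk : 0 < k) (h : (phi F q ^ k) y = aeval y (itp f k)) :
    y ≠ 0 ∧ y.order < 0 := by
  have key : ¬ 0 ≤ y.orderTop := by
    intro hy
    by_cases hc : y = HahnSeries.C (y.coeff 0)
    · have ht := IsScalarTower.of_algebraMap_eq (R := K) (S := F) (A := HahnSeries ℚ F)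
        fun a => by
          rw [algMap_eq, algMap_eq]
          rfl
      refine @hcon K F (HahnSeries ℚ F) _ _ _ _ _ _ _ ht b (y.coeff 0) G (transc hb0 hb) hG hX ?_
      rw [algMap_eq]
      change ev2 b (HahnSeries.C (y.coeff 0)) G = 0
      rw [← hc]
      exact hroot
    · obtain ⟨b', hb'⟩ := hpow K F (q + 1) f (by omega) hf hq k (y.coeff 0) hk
        (no_pole hf hq h hy hc)
      exact hne b' hb'
  have hy0 : y ≠ 0 := by
    rintro rfl
    exact key (by rw [HahnSeries.orderTop_zero]; exact le_top)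
  refine ⟨hy0, ?_⟩
  by_contra hcon'
  push Not at hcon'
  exact key (HahnSeries.zero_le_orderTop_iff.2 hcon')

end Pool.DynLehmer.GAL
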