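import Mathlib
import Pool.Agent.Lib.MP_2194ec_nt.GAL.B85.Pole

set_option autoImplicit false

/-! # Rigidity of fixed roots -/

namespace Pool.DynLehmer.GAL
open Polynomial

variable {K F : Type} [Field K] [Field F] [Algebra K F]

theorem term_order {y y' : HahnSeries ℚ F} (hy : y ≠ 0) (hy' : y' ≠ 0)
    (ho : y'.order = y.order) (a c : ℕ) :
    (y ^ a * y' ^ c).orderTop = ((((a + c : ℕ) : ℚ) * y.order : ℚ) : WithTop ℚ) := by
  rw [v_mul, v_pow hy, v_pow hy', ho, ← WithTop.coe_add]
  congr 1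
  push_cast
  ring

theorem term_coeff {y y' : HahnSeries ℚ F} (hy : y ≠ 0) (hy' : y' ≠ 0)
    (ho : y'.order = y.order) (hl : y'.leadingCoeff = y.leadingCoeff) (a c : ℕ) :
    (y ^ a * y' ^ c).coeff (((a + c : ℕ) : ℚ) * y.order) = y.leadingCoeff ^ (a + c) := by
  have hne : y ^ a * y' ^ c ≠ 0 := mul_ne_zero (pow_ne_zero _ hy) (pow_ne_zero _ hy')
  have h1 : (y ^ a * y' ^ c).order = ((a + c : ℕ) : ℚ) * y.order := by
    have := term_order hy hy' ho a c
    rw [← HahnSeries.order_eq_orderTop_of_ne_zero hne] at this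
    exact_mod_cast this
  rw [← h1, ← HahnSeries.leadingCoeff_eq, HahnSeries.leadingCoeff_mul, lc_pow, lc_pow, hl,
    pow_add]

theorem geom_order [CharZero F] {y y' : HahnSeries ℚ F} (hy : y ≠ 0) (hy' : y' ≠ 0)
    (ho : y'.order = y.order) (hl : y'.leadingCoeff = y.leadingCoeff) (i : ℕ) :
    (∑ a ∈ Finset.range (i + 1), y ^ a * y' ^ (i + 1 - 1 - a)).orderTop =
      (((i : ℚ) * y.order : ℚ) : WithTop ℚ) := by
  apply le_antisymm
  · apply HahnSeries.orderTop_le_of_coeff_ne_zero
    rw [HahnSeries.coeff_sum]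
    have h1 : ∀ a ∈ Finset.range (i + 1), (y ^ a * y' ^ (i + 1 - 1 - a)).coeff
        ((i : ℚ) * y.order) = y.leadingCoeff ^ i := by
      intro a ha
      rw [Finset.mem_range] at ha
      have h2 := term_coeff hy hy' ho hl a (i + 1 - 1 - a)
      rw [show a + (i + 1 - 1 - a) = i by omega] at h2
      exact h2
    rw [Finset.sum_congr rfl h1, Finset.sum_const, Finset.card_range, nsmul_eq_mul]
    refine mul_ne_zero ?_ (pow_ne_zero _ (HahnSeries.leadingCoeff_ne_zero.2 hy))
    exact_mod_cast Nat.succ_ne_zero i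
  · rw [← HahnSeries.addVal_apply]
    refine AddValuation.map_le_sum _ ?_
    intro a ha
    rw [Finset.mem_range] at ha
    rw [HahnSeries.addVal_apply, term_order hy hy' ho, show a + (i + 1 - 1 - a) = i by omega]

theorem pow_sub_order [CharZero F] {y y' : HahnSeries ℚ F} (hy : y ≠ 0) (hy' : y' ≠ 0)
    (ho : y'.order = y.order) (hl : y'.leadingCoeff = y.leadingCoeff) (hne : y - y' ≠ 0) (i : ℕ) :
    (y ^ (i + 1) - y' ^ (i + 1)).orderTop =
      (((i : ℚ) * y.order + (y - y').order : ℚ) : WithTop ℚ) := by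
  rw [← (Commute.all y y').geom_sum₂_mul (i + 1), v_mul, geom_order hy hy' ho hl,
    ← HahnSeries.order_eq_orderTop_of_ne_zero hne, ← WithTop.coe_add]

/-- **Rigidity.** -/
theorem rigid [CharZero F] {q : ℕ} {f : K[X]} (hf : f.Monic) (hq : f.natDegree = q + 1)
    (hq1 : 1 ≤ q) {y y' : HahnSeries ℚ F} (hy : y ≠ 0) (hneg : y.order < 0) (hy' : y' ≠ 0)
    (ho : y'.order = y.order) (hl : y'.leadingCoeff = y.leadingCoeff) {k : ℕ} (hk : 0 < k)
    (h : (phi F q ^ k) y = aeval y (itp f k)) (h' : (phi F q ^ k) y' = aeval y' (itp f k)) :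
    y = y' := by
  by_contra hcon
  have hw : y - y' ≠ 0 := sub_ne_zero.2 hcon
  set w := y - y' with hwdef
  obtain ⟨Q, hQ⟩ : ∃ Q, (q + 1) ^ k = Q + 1 :=
    ⟨(q + 1) ^ k - 1, by have : 0 < (q + 1) ^ k := by positivity
                         omega⟩
  have hQ1 : 1 ≤ Q := by
    have : 2 ^ 1 ≤ (q + 1) ^ k := (Nat.pow_le_pow_left (by omega) 1).trans
      (Nat.pow_le_pow_right (by omega) hk)
    omega
  have hmon : (itp f k).Monic := itp_monic hf (by omega) k
  have hdeg : (itp f k).natDegree = Q + 1 := by rw [itp_natDegree hq, hQ]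
  have e1 : aeval y (itp f k) - aeval y' (itp f k) = (y ^ (Q + 1) - y' ^ (Q + 1)) +
      ∑ i ∈ Finset.range (Q + 1), algebraMap K (HahnSeries ℚ F) ((itp f k).coeff i) *
        (y ^ i - y' ^ i) := by
    rw [aeval_def, aeval_def, eval₂_eq_sum_range, eval₂_eq_sum_range, hdeg,
      ← Finset.sum_sub_distrib, Finset.sum_range_succ, add_comm]
    congr 1
    · have : (itp f k).coeff (Q + 1) = 1 := by rw [← hdeg]; exact hmon
      rw [this, map_one, one_mul, one_mul]
    · refine Finset.sum_congr rfl fun i _ => ?_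
      rw [mul_sub]
  have hlt : (y ^ (Q + 1) - y' ^ (Q + 1)).orderTop <
      (∑ i ∈ Finset.range (Q + 1), algebraMap K (HahnSeries ℚ F) ((itp f k).coeff i) *
        (y ^ i - y' ^ i)).orderTop := by
    rw [pow_sub_order hy hy' ho hl hw]
    have h2 := AddValuation.map_lt_sum (HahnSeries.addVal ℚ F) (s := Finset.range (Q + 1))
      (f := fun i => algebraMap K (HahnSeries ℚ F) ((itp f k).coeff i) * (y ^ i - y' ^ i))
      (g := (((Q : ℚ) * y.order + w.order : ℚ) : WithTop ℚ)) WithTop.coe_ne_top (by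
        intro i hi
        rw [Finset.mem_range] at hi
        rw [HahnSeries.addVal_apply, v_mul]
        refine lt_of_lt_of_le ?_ (le_add_of_nonneg_left (v_const _))
        rcases i with _ | i
        · rw [pow_zero, pow_zero, sub_self, HahnSeries.orderTop_zero]
          exact WithTop.coe_lt_top _
        · rw [pow_sub_order hy hy' ho hl hw, WithTop.coe_lt_coe]
          have : (i : ℚ) < Q := by exact_mod_cast (by omega : i < Q)
          rw [← hwdef]
          nlinarith)
    rw [HahnSeries.addVal_apply] at h2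
    exact h2
  have h3 : ((phi F q ^ k) w).orderTop = (((Q : ℚ) * y.order + w.order : ℚ) : WithTop ℚ) := by
    rw [hwdef, map_sub, h, h', e1, HahnSeries.orderTop_add_eq_left hlt,
      pow_sub_order hy hy' ho hl hw]
  have hpw : (phi F q ^ k) w ≠ 0 := fun h0 => hw (ph_injective q k (by rw [h0, map_zero]))
  rw [← HahnSeries.order_eq_orderTop_of_ne_zero hpw, ph_order] at h3
  have h4 : ((q : ℚ) + 1) ^ k * w.order = (Q : ℚ) * y.order + w.order := by exact_mod_cast h3
  have h5 : ((q : ℚ) + 1) ^ k = Q + 1 := by exact_mod_cast hQ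
  rw [h5] at h4
  have h6 : (Q : ℚ) * (w.order - y.order) = 0 := by linarith
  have h7 : w.order = y.order := by
    rcases mul_eq_zero.1 h6 with h | h
    · exfalso
      have : Q = 0 := by exact_mod_cast h
      omega
    · linarith
  have h8 : w.coeff w.order ≠ 0 := fun h => hw (HahnSeries.coeff_order_eq_zero.1 h)
  apply h8
  rw [h7, hwdef, HahnSeries.coeff_sub, ← HahnSeries.leadingCoeff_eq, ← ho,
    ← HahnSeries.leadingCoeff_eq, hl, sub_self]

end Pool.DynLehmer.GAL
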